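import Mathlib
import Pool.Agent.U67.SNP.Tab

/-! # The finite verification -/

set_option autoImplicit false

namespace Pool.Agent.U67.SNP

/-- The partitions of `n` with parts at most `m` (`f` is the fuel). -/
def pp : ℕ → ℕ → ℕ → List (List ℕ)
  | 0, _, _ => []
  | f + 1, n, m =>
    bif Nat.beq n 0 then [[]] else bif Nat.beq m 0 then [] else
      (bif Nat.ble m n then (pp f (n - m) m).map (List.cons m) else []) ++ pp f n (m - 1)

/-- The partitions of `n`. -/
def P (n : ℕ) : List (List ℕ) := pp (n + n + 1) n n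

/-- `μ / ν` is a horizontal strip -/
def ill : List ℕ → List ℕ → Bool
  | ν, [] => ν.isEmpty
  | [], _ :: μ => μ.isEmpty
  | a :: ν, x :: μ => Nat.ble a x && (Nat.ble (μ.headD 0) a && ill ν μ)

/-- The sum of the entries of the row at the partitions which are a horizontal strip over `ν`. -/
def Dv : List (List ℕ) → List ℤ → List ℕ → ℤ
  | p :: ps, c :: cs, ν => bif ill ν p then c + Dv ps cs ν else Dv ps cs ν
  | _, _, _ => 0

/-- sum of vectors -/
def vadd : List ℤ → List ℤ → List ℤ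
  | [], ys => ys
  | xs, [] => xs
  | x :: xs, y :: ys => (x + y) :: vadd xs ys

/-- the row of the table -/
def row (t : ℕ × ℕ × ℕ × ℕ) : List ℤ :=
  ((((tab.getD t.1 []).getD t.2.1 []).getD t.2.2.1 []).getD t.2.2.2 [])

/-- the tuples below `t` -/
def tup (t : ℕ × ℕ × ℕ × ℕ) : List (ℕ × ℕ × ℕ × ℕ) :=
  (List.range (t.1 + 1)).flatMap fun s0 => (List.range (t.2.1 + 1)).flatMap fun s1 =>
    (List.range (t.2.2.1 + 1)).flatMap fun s2 => (List.range (t.2.2.2 + 1)).map fun s3 =>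
      (s0, s1, s2, s3)

/-- the color class with `s` vertices in the four blocks is stable -/
def okb (s : ℕ × ℕ × ℕ × ℕ) : Bool :=
  (Nat.beq s.1 0 || Nat.beq s.2.1 0) && (Nat.beq s.2.1 0 || Nat.beq s.2.2.1 0) &&
    (Nat.beq s.2.2.1 0 || Nat.beq s.2.2.2 0)

/-- the total size -/
def tot (s : ℕ × ℕ × ℕ × ℕ) : ℕ := s.1 + s.2.1 + s.2.2.1 + s.2.2.2

/-- the number of subsets of type `s` of a set of type `t` -/
def mult (t s : ℕ × ℕ × ℕ × ℕ) : ℕ :=
  t.1.choose s.1 * t.2.1.choose s.2.1 * t.2.2.1.choose s.2.2.1 * t.2.2.2.choose s.2.2.2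

/-- the right side -/
def rhs (t : ℕ × ℕ × ℕ × ℕ) (a : ℕ) : List ℤ :=
  (tup t).foldr (fun s acc => bif okb s && Nat.beq (tot s) a then
    vadd ((row (t.1 - s.1, t.2.1 - s.2.1, t.2.2.1 - s.2.2.1, t.2.2.2 - s.2.2.2)).map
      fun x => (mult t s : ℤ) * x) acc else acc) ((P (tot t - a)).map fun _ => 0)

/-- the check for `t` -/
def chk (t : ℕ × ℕ × ℕ × ℕ) : Bool :=
  (List.range (tot t + 1)).all fun a =>
    decide ((P (tot t - a)).map (Dv (P (tot t)) (row t)) = rhs t a)

end Pool.Agent.U67.SNP
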