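import Mathlib
import Pool.Agent.U67.SNP.Comp

/-! # The verification, part 3 -/

set_option autoImplicit false

namespace Pool.Agent.U67.SNP

theorem chk3 : ((List.range 3).all fun b => (List.range 3).all fun c => (List.range 5).all fun d =>
    chk (3, b, c, d)) = true := by
  decide +kernel

end Pool.Agent.U67.SNP
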