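import Mathlib
import Pool.Agent.U67.SNP.Comp
import Pool.Agent.R850.FG.SSYT

/-! # Partitions as lists -/

set_option autoImplicit false

namespace Pool.Agent.U67.SNP

open Pool.Agent.R850.FG

theorem beq_f {a b : ℕ} (h : a ≠ b) : Nat.beq a b = false := by
  cases hb : Nat.beq a b with
  | false => rfl
  | true => exact absurd (Nat.eq_of_beq_eq_true hb) h

theorem ble_t {a b : ℕ} (h : a ≤ b) : Nat.ble a b = true := by
  rw [Nat.ble_eq]; exact h

theorem ble_f {a b : ℕ} (h : ¬ a ≤ b) : Nat.ble a b = false := by
  cases hb : Nat.ble a b with
  | false => rfl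
  | true => rw [Nat.ble_eq] at hb; exact absurd hb h

theorem mem_pp (f : ℕ) : ∀ (n m : ℕ), n + m < f → ∀ l : List ℕ, l ∈ pp f n m ↔
    l.Pairwise (· ≥ ·) ∧ (∀ x ∈ l, 0 < x ∧ x ≤ m) ∧ l.sum = n := by
  induction f with
  | zero => intro n m h; omega
  | succ f ih =>
    intro n m h l
    rw [pp]
    rcases Nat.eq_zero_or_pos n with rfl | hn
    · simp only [Nat.beq_eq_true_eq, cond_true, List.mem_singleton,
        show Nat.beq 0 0 = true from rfl]
      constructor
      · rintro rfl
        simp
      · rintro ⟨-, h2, h3⟩
        cases l with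
        | nil => rfl
        | cons x l =>
          have := (h2 x (by simp)).1
          simp at h3
          omega
    · have h1 : Nat.beq n 0 = false := beq_f (by omega)
      rw [h1, cond_false]
      rcases Nat.eq_zero_or_pos m with rfl | hm
      · simp only [show Nat.beq 0 0 = true from rfl, cond_true]
        constructor
        · intro h2
          simp at h2
        · rintro ⟨-, h2, h3⟩
          cases l with
          | nil => simp at h3; omega
          | cons x l =>
            have := h2 x (by simp)
            omega
      · have h2 : Nat.beq m 0 = false := beq_f (by omega)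
        rw [h2, cond_false, List.mem_append, ih n (m - 1) (by omega)]
        constructor
        · rintro (h3 | ⟨h3, h4, h5⟩)
          · by_cases hmn : m ≤ n
            · rw [show Nat.ble m n = true from ble_t hmn, cond_true, List.mem_map] at h3
              obtain ⟨l', h4, rfl⟩ := h3
              rw [ih (n - m) m (by omega)] at h4
              obtain ⟨h5, h6, h7⟩ := h4
              refine ⟨List.pairwise_cons.2 ⟨fun x hx => (h6 x hx).2, h5⟩, ?_, ?_⟩
              · intro x hx
                rcases List.mem_cons.1 hx with rfl | hx
                · exact ⟨hm, le_rfl⟩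
                · exact h6 x hx
              · rw [List.sum_cons, h7]; omega
            · have : Nat.ble m n = false := ble_f hmn
              rw [this, cond_false] at h3
              simp at h3
          · exact ⟨h3, fun x hx => ⟨(h4 x hx).1, by have := (h4 x hx).2; omega⟩, h5⟩
        · rintro ⟨h3, h4, h5⟩
          cases l with
          | nil => simp at h5; omega
          | cons x l =>
            have hx := h4 x (by simp)
            rw [List.pairwise_cons] at h3
            rw [List.sum_cons] at h5
            by_cases hxm : x = m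
            · left
              subst hxm
              rw [show Nat.ble x n = true from ble_t (by omega), cond_true, List.mem_map]
              refine ⟨l, ?_, rfl⟩
              rw [ih (n - x) x (by omega)]
              exact ⟨h3.2, fun y hy => ⟨(h4 y (by simp [hy])).1, h3.1 y hy⟩, by omega⟩
            · right
              refine ⟨List.pairwise_cons.2 h3, ?_, by rw [List.sum_cons]; exact h5⟩
              intro y hy
              refine ⟨(h4 y hy).1, ?_⟩
              rcases List.mem_cons.1 hy with rfl | hy
              · omega
              · have := h3.1 y hy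
                omega

theorem nodup_pp (f : ℕ) : ∀ (n m : ℕ), n + m < f → (pp f n m).Nodup := by
  induction f with
  | zero => intro n m h; omega
  | succ f ih =>
    intro n m h
    rw [pp]
    rcases Nat.eq_zero_or_pos n with rfl | hn
    · simp [show Nat.beq 0 0 = true from rfl]
    · have h1 : Nat.beq n 0 = false := beq_f (by omega)
      rw [h1, cond_false]
      rcases Nat.eq_zero_or_pos m with rfl | hm
      · simp [show Nat.beq 0 0 = true from rfl]
      · have h2 : Nat.beq m 0 = false := beq_f (by omega)
        rw [h2, cond_false]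
        apply List.Nodup.append
        · by_cases hmn : m ≤ n
          · rw [show Nat.ble m n = true from ble_t hmn, cond_true]
            exact (ih (n - m) m (by omega)).map (List.cons_injective)
          · have : Nat.ble m n = false := ble_f hmn
            rw [this, cond_false]
            exact List.nodup_nil
        · exact ih n (m - 1) (by omega)
        · intro l hl1 hl2
          rw [mem_pp f n (m - 1) (by omega)] at hl2
          by_cases hmn : m ≤ n
          · rw [show Nat.ble m n = true from ble_t hmn, cond_true, List.mem_map] at hl1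
            obtain ⟨l', h4, rfl⟩ := hl1
            have := (hl2.2.1 m (by simp)).2
            omega
          · have : Nat.ble m n = false := ble_f hmn
            rw [this, cond_false] at hl1
            simp at hl1

theorem mem_P {n : ℕ} {l : List ℕ} : l ∈ P n ↔
    l.Pairwise (· ≥ ·) ∧ (∀ x ∈ l, 0 < x) ∧ l.sum = n := by
  rw [P, mem_pp _ _ _ (by omega)]
  constructor
  · rintro ⟨h1, h2, h3⟩
    exact ⟨h1, fun x hx => (h2 x hx).1, h3⟩
  · rintro ⟨h1, h2, h3⟩
    refine ⟨h1, fun x hx => ⟨h2 x hx, ?_⟩, h3⟩
    rw [← h3]
    exact List.single_le_sum (by simp) x hx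

theorem nodup_P (n : ℕ) : (P n).Nodup := nodup_pp _ _ _ (by omega)

theorem rowLens_getD (μ : YoungDiagram) (i : ℕ) : μ.rowLens.getD i 0 = μ.rowLen i := by
  by_cases h : i < μ.rowLens.length
  · rw [List.getD_eq_getElem _ _ h]
    exact YoungDiagram.get_rowLens
  · rw [List.getD_eq_default _ _ (by omega)]
    rw [YoungDiagram.length_rowLens] at h
    by_contra h1
    have h2 : 0 < μ.rowLen i := by omega
    rw [← YoungDiagram.mem_iff_lt_rowLen, YoungDiagram.mem_iff_lt_colLen] at h2
    exact h h2

theorem sum_rowLens (μ : YoungDiagram) : μ.rowLens.sum = μ.cells.card := by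
  have h0 : μ.rowLen (μ.colLen 0) = 0 := by
    by_contra h1
    have h2 : 0 < μ.rowLen (μ.colLen 0) := by omega
    rw [← YoungDiagram.mem_iff_lt_rowLen, YoungDiagram.mem_iff_lt_colLen] at h2
    exact lt_irrefl _ h2
  have h := card_eq_sum μ (μ.colLen 0) h0
  rw [h, YoungDiagram.rowLens]
  rfl

theorem rowLens_mem_P {n : ℕ} {μ : YoungDiagram} (h : μ.cells.card = n) : μ.rowLens ∈ P n := by
  rw [mem_P]
  refine ⟨?_, μ.pos_of_mem_rowLens, by rw [sum_rowLens, h]⟩
  have := μ.rowLens_sorted
  exact this.pairwise

theorem rowLens_inj {μ ν : YoungDiagram} (h : μ.rowLens = ν.rowLens) : μ = ν := by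
  apply ext_rowLen
  intro i
  rw [← rowLens_getD, ← rowLens_getD, h]

theorem sum_YD (n : ℕ) (F : List ℕ → ℤ) :
    ∑ ρ ∈ YD n, F ρ.rowLens = ((P n).map F).sum := by
  classical
  rw [← List.sum_toFinset F (nodup_P n)]
  refine Finset.sum_bij' (fun ρ _ => ρ.rowLens)
    (fun l hl => YoungDiagram.ofRowLens l
      (List.Pairwise.sortedGE (mem_P.1 (List.mem_toFinset.1 hl)).1)) ?_ ?_ ?_ ?_ ?_
  · intro ρ hρ
    rw [List.mem_toFinset]
    exact rowLens_mem_P (mem_YD.1 hρ)
  · intro l hl
    rw [List.mem_toFinset, mem_P] at hl
    rw [mem_YD, ← sum_rowLens, YoungDiagram.rowLens_ofRowLens_eq_self hl.2.1, hl.2.2]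
  · intro ρ hρ
    exact YoungDiagram.ofRowLens_to_rowLens_eq_self
  · intro l hl
    rw [List.mem_toFinset, mem_P] at hl
    exact YoungDiagram.rowLens_ofRowLens_eq_self hl.2.1
  · intro ρ hρ
    rfl

end Pool.Agent.U67.SNP
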