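import Mathlib
import Pool.Agent.U67.SNP.PartsL

/-! # Vectors indexed by partitions -/

set_option autoImplicit false

namespace Pool.Agent.U67.SNP

open Pool.Agent.R850.FG

theorem ill_iff : ∀ (μ ν : List ℕ), (∀ x ∈ μ, 0 < x) → (∀ x ∈ ν, 0 < x) →
    (ill ν μ = true ↔ ∀ i, μ.getD (i + 1) 0 ≤ ν.getD i 0 ∧ ν.getD i 0 ≤ μ.getD i 0)
  | [], ν, _, hν => by
    cases ν with
    | nil => simp [ill]
    | cons a ν =>
      simp only [ill, List.isEmpty_cons, Bool.false_eq_true, false_iff]
      intro h
      have h1 := (h 0).2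
      have h2 := hν a (by simp)
      simp at h1
      omega
  | x :: μ, ν, hμ, hν => by
    cases ν with
    | nil =>
      cases μ with
      | nil => simp [ill]
      | cons y μ =>
        simp only [ill, List.isEmpty_cons, Bool.false_eq_true, false_iff]
        intro h
        have h1 := (h 0).1
        have h2 := hμ y (by simp)
        simp at h1
        omega
    | cons a ν =>
      have ih := ill_iff μ ν (fun x hx => hμ x (by simp [hx])) (fun x hx => hν x (by simp [hx]))
      rw [ill, Bool.and_eq_true, Bool.and_eq_true, ih, Nat.ble_eq, Nat.ble_eq]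
      have hh : μ.headD 0 = μ.getD 0 0 := by cases μ <;> rfl
      rw [hh]
      constructor
      · rintro ⟨h1, h2, h3⟩ i
        cases i with
        | zero => exact ⟨h2, h1⟩
        | succ i => exact h3 i
      · intro h
        exact ⟨(h 0).2, (h 0).1, fun i => h (i + 1)⟩

theorem IL_iff (ν μ : YoungDiagram) : IL ν μ ↔ ill ν.rowLens μ.rowLens = true := by
  rw [ill_iff _ _ μ.pos_of_mem_rowLens ν.pos_of_mem_rowLens]
  simp only [rowLens_getD]
  rfl

/-- the entry of the vector at a partition -/
def val : List (List ℕ) → List ℤ → List ℕ → ℤ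
  | p :: ps, c :: cs, l => (if p = l then c else 0) + val ps cs l
  | _, _, _ => 0

theorem val_nil (ps : List (List ℕ)) (l : List ℕ) : val ps [] l = 0 := by
  cases ps <;> rfl

theorem val_vadd : ∀ (ps : List (List ℕ)) (xs ys : List ℤ) (l : List ℕ),
    val ps (vadd xs ys) l = val ps xs l + val ps ys l
  | ps, [], ys, l => by rw [vadd, val_nil, zero_add]
  | ps, x :: xs, [], l => by rw [vadd, val_nil, add_zero]; simp
  | [], x :: xs, y :: ys, l => by simp [val]
  | p :: ps, x :: xs, y :: ys, l => by
    rw [vadd, val, val, val, val_vadd ps xs ys l]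
    split_ifs <;> ring

theorem val_smul (m : ℤ) : ∀ (ps : List (List ℕ)) (xs : List ℤ) (l : List ℕ),
    val ps (xs.map fun x => m * x) l = m * val ps xs l
  | ps, [], l => by rw [List.map_nil, val_nil, mul_zero]
  | [], x :: xs, l => by simp [val]
  | p :: ps, x :: xs, l => by
    rw [List.map_cons, val, val, val_smul m ps xs l]
    split_ifs <;> ring

theorem val_zero : ∀ (ps qs : List (List ℕ)) (l : List ℕ),
    val ps (qs.map fun _ => 0) l = 0
  | ps, [], l => by rw [List.map_nil, val_nil]
  | [], x :: xs, l => by simp [val]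
  | p :: ps, x :: xs, l => by
    rw [List.map_cons, val, val_zero ps xs l]
    simp

theorem val_notMem : ∀ (ps : List (List ℕ)) (xs : List ℤ) (l : List ℕ), l ∉ ps →
    val ps xs l = 0
  | ps, [], l, _ => by rw [val_nil]
  | [], x :: xs, l, _ => by simp [val]
  | p :: ps, x :: xs, l, h => by
    rw [List.mem_cons, not_or] at h
    rw [val, val_notMem ps xs l h.2, if_neg (fun h1 => h.1 h1.symm), zero_add]

theorem val_map (F : List ℕ → ℤ) : ∀ (ps : List (List ℕ)) (l : List ℕ), ps.Nodup → l ∈ ps →
    val ps (ps.map F) l = F l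
  | [], l, _, h => by simp at h
  | p :: ps, l, hn, h => by
    rw [List.nodup_cons] at hn
    rw [List.map_cons, val]
    rcases List.mem_cons.1 h with rfl | h
    · rw [if_pos rfl, val_notMem _ _ _ hn.1, add_zero]
    · rw [if_neg (by rintro rfl; exact hn.1 h), val_map F ps l hn.2 h, zero_add]

theorem Dv_eq (ν : List ℕ) : ∀ (ps : List (List ℕ)) (xs : List ℤ), ps.Nodup →
    (ps.map fun l => bif ill ν l then val ps xs l else 0).sum = Dv ps xs ν
  | ps, [], _ => by
    have : Dv ps [] ν = 0 := by cases ps <;> rfl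
    rw [this]
    apply List.sum_eq_zero
    intro x hx
    rw [List.mem_map] at hx
    obtain ⟨l, -, rfl⟩ := hx
    rw [val_nil]
    cases ill ν l <;> rfl
  | [], x :: xs, _ => by simp [Dv]
  | p :: ps, x :: xs, hn => by
    rw [List.nodup_cons] at hn
    have ih := Dv_eq ν ps xs hn.2
    rw [Dv, List.map_cons, List.sum_cons]
    have h1 : (ps.map fun l => bif ill ν l then val (p :: ps) (x :: xs) l else 0) =
        ps.map fun l => bif ill ν l then val ps xs l else 0 := by
      apply List.map_congr_left
      intro l hl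
      rw [val, if_neg (by rintro rfl; exact hn.1 hl), zero_add]
    rw [h1, ih, val, if_pos rfl, val_notMem _ _ _ hn.1, add_zero]
    cases ill ν p <;> simp

/-- the type of four sizes -/
abbrev T4 := ℕ × ℕ × ℕ × ℕ

/-- the Schur coefficients as a function on Young diagrams -/
noncomputable def cY (t : T4) (ρ : YoungDiagram) : ℤ := val (P (tot t)) (row t) ρ.rowLens

theorem cY_eq_zero (t : T4) (ρ : YoungDiagram) (h : ρ.cells.card ≠ tot t) : cY t ρ = 0 := by
  rw [cY]
  apply val_notMem
  intro h1
  rw [mem_P, sum_rowLens] at h1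
  exact h h1.2.2

theorem D_cY (t : T4) (a : ℕ) (ν : YoungDiagram) (h : ν.cells.card + a = tot t) :
    D a (cY t) ν = Dv (P (tot t)) (row t) ν.rowLens := by
  classical
  rw [← Dv_eq _ _ _ (nodup_P _), ← sum_YD, D, h, Finset.sum_filter]
  refine Finset.sum_congr rfl fun ρ _ => ?_
  rw [cY]
  by_cases hI : IL ν ρ
  · rw [if_pos hI, (IL_iff ν ρ).1 hI]
    rfl
  · rw [if_neg hI]
    rw [IL_iff, Bool.not_eq_true] at hI
    rw [hI]
    rfl

/-- difference of types -/
def sub4 (t s : T4) : T4 := (t.1 - s.1, t.2.1 - s.2.1, t.2.2.1 - s.2.2.1, t.2.2.2 - s.2.2.2)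

theorem val_foldr (ps : List (List ℕ)) (l : List ℕ) (t : T4) (a : ℕ) (L : List T4) (z : List ℤ)
    (hz : val ps z l = 0) :
    val ps (L.foldr (fun s acc => bif okb s && Nat.beq (tot s) a then
      vadd ((row (t.1 - s.1, t.2.1 - s.2.1, t.2.2.1 - s.2.2.1, t.2.2.2 - s.2.2.2)).map
      fun x => (mult t s : ℤ) * x) acc else acc) z) l =
      (L.map fun s => bif okb s && Nat.beq (tot s) a then
        (mult t s : ℤ) * val ps (row (sub4 t s)) l else 0).sum := by
  induction L with
  | nil => simpa using hz
  | cons s L ih =>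
    rw [List.foldr_cons, List.map_cons, List.sum_cons, ← ih]
    cases hb : (okb s && Nat.beq (tot s) a)
    · rw [cond_false, cond_false, zero_add]
    · rw [cond_true, cond_true, val_vadd, val_smul]
      rfl

theorem chk_spec (t : T4) (h : chk t = true) (a : ℕ) (ν : YoungDiagram)
    (hν : ν.cells.card + a = tot t) :
    D a (cY t) ν = ((tup t).map fun s => bif okb s && Nat.beq (tot s) a then
        (mult t s : ℤ) * val (P (tot t - a)) (row (sub4 t s)) ν.rowLens else 0).sum := by
  rw [D_cY t a ν hν]
  rw [chk, List.all_eq_true] at h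
  have h1 := h a (List.mem_range.2 (by omega))
  rw [decide_eq_true_iff] at h1
  have h2 : ν.rowLens ∈ P (tot t - a) := rowLens_mem_P (by omega)
  rw [← val_map (Dv (P (tot t)) (row t)) _ _ (nodup_P _) h2, h1, rhs]
  exact val_foldr _ _ _ _ _ _ (val_zero _ _ _)

end Pool.Agent.U67.SNP
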