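import Mathlib
import Pool.Agent.U67.SNP.Vec

/-! # Sums over subsets and types -/

set_option autoImplicit false

namespace Pool.Agent.U67.SNP

open Pool.Agent.R850.FG Finset

/-- binomial sum -/
def B (t : ℕ) (f : ℕ → ℤ) : ℤ := ∑ s ∈ range (t + 1), (t.choose s : ℤ) * f s

theorem B_zero (f : ℕ → ℤ) : B 0 f = f 0 := by simp [B]

theorem B_add (t : ℕ) (f g : ℕ → ℤ) : B t (fun s => f s + g s) = B t f + B t g := by
  rw [B, B, B, ← Finset.sum_add_distrib]
  refine Finset.sum_congr rfl fun s _ => by ring

theorem B_succ (t : ℕ) (f : ℕ → ℤ) : B (t + 1) f = B t f + B t (fun s => f (s + 1)) := by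
  have h1 : B t f = ∑ s ∈ range (t + 1), (t.choose (s + 1) : ℤ) * f (s + 1) + f 0 := by
    have h2 : B t f = ∑ s ∈ range (t + 2), (t.choose s : ℤ) * f s := by
      rw [Finset.sum_range_succ, B, Nat.choose_succ_self]
      simp
    rw [h2, Finset.sum_range_succ']
    simp
  rw [h1]
  unfold B
  rw [Finset.sum_range_succ']
  simp only [Nat.choose_succ_succ, Nat.choose_zero_right, Nat.cast_add, add_mul,
    Finset.sum_add_distrib, Nat.cast_one, one_mul]
  ring

/-- four-fold binomial sum -/
def R4 (t : T4) (h : T4 → ℤ) : ℤ :=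
  B t.1 fun s0 => B t.2.1 fun s1 => B t.2.2.1 fun s2 => B t.2.2.2 fun s3 => h (s0, s1, s2, s3)

theorem list_range_sum (n : ℕ) (f : ℕ → ℤ) :
    ((List.range n).map f).sum = ∑ i ∈ range n, f i := by
  induction n with
  | zero => simp
  | succ n ih => rw [List.range_succ, List.map_append, List.sum_append, ih,
      Finset.sum_range_succ]; simp

theorem list_sum_flatMap {α : Type} (L : List ℕ) (f : ℕ → List α) (g : α → ℤ) :
    ((L.flatMap f).map g).sum = (L.map fun x => ((f x).map g).sum).sum := by
  induction L with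
  | nil => simp
  | cons x L ih => simp [List.flatMap_cons, ih]

theorem tup_sum (t : T4) (h : T4 → ℤ) :
    ((tup t).map fun s => (mult t s : ℤ) * h s).sum = R4 t h := by
  unfold tup R4 B
  rw [list_sum_flatMap, list_range_sum]
  refine Finset.sum_congr rfl fun s0 _ => ?_
  rw [list_sum_flatMap, list_range_sum, Finset.mul_sum]
  refine Finset.sum_congr rfl fun s1 _ => ?_
  rw [list_sum_flatMap, list_range_sum, Finset.mul_sum, Finset.mul_sum]
  refine Finset.sum_congr rfl fun s2 _ => ?_
  rw [List.map_map, list_range_sum, Finset.mul_sum, Finset.mul_sum, Finset.mul_sum]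
  refine Finset.sum_congr rfl fun s3 _ => ?_
  simp only [Function.comp, mult]
  push_cast
  ring

/-- block of a vertex -/
def blk (v : Fin 12) : ℕ :=
  if v.val < 4 then 0 else if v.val < 6 then 1 else if v.val < 8 then 2 else 3

/-- type of a set of vertices -/
def ty (S : Finset (Fin 12)) : T4 :=
  ((S.filter (blk · = 0)).card, (S.filter (blk · = 1)).card, (S.filter (blk · = 2)).card,
    (S.filter (blk · = 3)).card)

theorem filt_insert (S : Finset (Fin 12)) (v : Fin 12) (j : ℕ) (hv : v ∉ S) :
    ((insert v S).filter (blk · = j)).card =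
      (S.filter (blk · = j)).card + if blk v = j then 1 else 0 := by
  rw [Finset.filter_insert]
  split_ifs with h
  · rw [Finset.card_insert_of_notMem]
    intro h1
    exact hv (Finset.mem_filter.1 h1).1
  · rfl

theorem blk_cases (v : Fin 12) : blk v = 0 ∨ blk v = 1 ∨ blk v = 2 ∨ blk v = 3 := by
  revert v; decide

theorem sum_powerset_ty (T : Finset (Fin 12)) : ∀ h : T4 → ℤ,
    ∑ S ∈ T.powerset, h (ty S) = R4 (ty T) h := by
  classical
  induction T using Finset.induction_on with
  | empty =>
    intro h
    rw [Finset.powerset_empty, Finset.sum_singleton]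
    have : ty ∅ = (0, 0, 0, 0) := rfl
    rw [this]
    simp [R4, B_zero]
  | insert v T hv ih =>
    intro h
    rw [Finset.sum_powerset_insert hv, ih]
    have h1 : ∀ S ∈ T.powerset, h (ty (insert v S)) =
        (fun s : T4 => h (s.1 + (if blk v = 0 then 1 else 0), s.2.1 + (if blk v = 1 then 1 else 0),
          s.2.2.1 + (if blk v = 2 then 1 else 0), s.2.2.2 + (if blk v = 3 then 1 else 0)))
          (ty S) := by
      intro S hS
      have hvS : v ∉ S := fun h2 => hv (Finset.mem_powerset.1 hS h2)
      simp only [ty, filt_insert S v _ hvS]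
    have h3 := ih (fun s : T4 => h (s.1 + (if blk v = 0 then 1 else 0),
      s.2.1 + (if blk v = 1 then 1 else 0), s.2.2.1 + (if blk v = 2 then 1 else 0),
      s.2.2.2 + (if blk v = 3 then 1 else 0)))
    rw [Finset.sum_congr rfl h1, h3]
    have h2 : ty (insert v T) = ((ty T).1 + (if blk v = 0 then 1 else 0),
        (ty T).2.1 + (if blk v = 1 then 1 else 0), (ty T).2.2.1 + (if blk v = 2 then 1 else 0),
        (ty T).2.2.2 + (if blk v = 3 then 1 else 0)) := by
      simp only [ty, filt_insert T v _ hv]
    rw [h2]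
    rcases blk_cases v with hb | hb | hb | hb
    · rw [hb]
      simp only [if_true, zero_ne_one, if_false, add_zero, R4, B_succ,
        show ¬ ((0 : ℕ) = 2) by decide, show ¬ ((0 : ℕ) = 3) by decide]
    · rw [hb]
      simp only [if_true, one_ne_zero, if_false, add_zero, R4, B_succ, B_add,
        show ¬ ((1 : ℕ) = 2) by decide, show ¬ ((1 : ℕ) = 3) by decide]
    · rw [hb]
      simp only [if_true, if_false, add_zero, R4, B_succ, B_add,
        show ¬ ((2 : ℕ) = 0) by decide, show ¬ ((2 : ℕ) = 1) by decide,
        show ¬ ((2 : ℕ) = 3) by decide]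
    · rw [hb]
      simp only [if_true, if_false, add_zero, R4, B_succ, B_add,
        show ¬ ((3 : ℕ) = 0) by decide, show ¬ ((3 : ℕ) = 1) by decide,
        show ¬ ((3 : ℕ) = 2) by decide]

theorem tot_ty (S : Finset (Fin 12)) : tot (ty S) = S.card := by
  classical
  induction S using Finset.induction_on with
  | empty => rfl
  | insert v T hv ih =>
    rw [Finset.card_insert_of_notMem hv, ← ih]
    simp only [tot, ty, filt_insert T v _ hv]
    rcases blk_cases v with hb | hb | hb | hb <;> rw [hb] <;> simp <;> omega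

theorem ty_sdiff (T S : Finset (Fin 12)) (h : S ⊆ T) : ty (T \ S) = sub4 (ty T) (ty S) := by
  have key : ∀ j, ((T \ S).filter (blk · = j)).card =
      (T.filter (blk · = j)).card - (S.filter (blk · = j)).card := by
    intro j
    rw [← Finset.card_sdiff_of_subset (Finset.filter_subset_filter _ h)]
    congr 1
    ext v
    simp only [Finset.mem_filter, Finset.mem_sdiff]
    tauto
  simp only [ty, sub4, key]

/-- adjacency in the blow-up of the path -/
def Adj (u v : Fin 12) : Prop := blk u + 1 = blk v ∨ blk v + 1 = blk u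

instance : DecidableRel Adj := fun u v => by unfold Adj; infer_instance

/-- stable sets -/
def Stable (S : Finset (Fin 12)) : Prop := ∀ u ∈ S, ∀ v ∈ S, ¬ Adj u v

instance : DecidablePred Stable := fun S => by unfold Stable; infer_instance

theorem beq_zero_iff (n : ℕ) : Nat.beq n 0 = true ↔ n = 0 := by
  cases n with
  | zero => simp
  | succ n => simp [show Nat.beq (n + 1) 0 = false from rfl]

theorem beq_iff (n m : ℕ) : Nat.beq n m = true ↔ n = m := by
  constructor
  · exact Nat.eq_of_beq_eq_true
  · rintro rfl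
    exact Nat.beq_refl n

theorem okb_iff (S : Finset (Fin 12)) : okb (ty S) = true ↔ Stable S := by
  rw [okb]
  simp only [Bool.and_eq_true, Bool.or_eq_true, beq_zero_iff]
  simp only [ty, Finset.card_eq_zero, Finset.filter_eq_empty_iff]
  constructor
  · rintro ⟨⟨h0, h1⟩, h2⟩ u hu v hv hadj
    have key : ∀ a b : Fin 12, a ∈ S → b ∈ S → blk a + 1 = blk b → False := by
      intro a b ha hb hab
      rcases blk_cases a with h | h | h | h
      · rcases h0 with h3 | h3
        · exact h3 ha h
        · exact h3 hb (by omega)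
      · rcases h1 with h3 | h3
        · exact h3 ha h
        · exact h3 hb (by omega)
      · rcases h2 with h3 | h3
        · exact h3 ha h
        · exact h3 hb (by omega)
      · rcases blk_cases b with h' | h' | h' | h' <;> omega
    rcases hadj with h3 | h3
    · exact key u v hu hv h3
    · exact key v u hv hu h3
  · intro h
    have key : ∀ i, (∀ ⦃a⦄, a ∈ S → ¬ blk a = i) ∨ (∀ ⦃a⦄, a ∈ S → ¬ blk a = i + 1) := by
      intro i
      by_contra hc
      rw [not_or] at hc
      obtain ⟨h1, h2⟩ := hc
      push Not at h1 h2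
      obtain ⟨a, ha, ha'⟩ := h1
      obtain ⟨b, hb, hb'⟩ := h2
      exact h a ha b hb (Or.inl (by omega))
    exact ⟨⟨key 0, key 1⟩, key 2⟩

end Pool.Agent.U67.SNP
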