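import Mathlib
import Pool.Agent.U67.SNP.Types
import Pool.Agent.U67.SNP.Chk0
import Pool.Agent.U67.SNP.Chk1
import Pool.Agent.U67.SNP.Chk2
import Pool.Agent.U67.SNP.Chk3
import Pool.Agent.U67.SNP.Chk4

/-! # The number of colorings with given content -/

set_option autoImplicit false

namespace Pool.Agent.U67.SNP

open Pool.Agent.R850.FG Finset

/-- the proper colorings of `T` with colors below `k`, the color `i` being used `m i` times -/
def Col (T : Finset (Fin 12)) (k : ℕ) (m : ℕ → ℕ) : Finset (Fin 12 → ℕ) :=
  (Fintype.piFinset fun v => if v ∈ T then range k else {0}).filter fun κ =>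
    (∀ u ∈ T, ∀ v ∈ T, Adj u v → κ u ≠ κ v) ∧ ∀ i < k, (T.filter fun v => κ v = i).card = m i

theorem mem_Col {T : Finset (Fin 12)} {k : ℕ} {m : ℕ → ℕ} {κ : Fin 12 → ℕ} :
    κ ∈ Col T k m ↔ (∀ v ∈ T, κ v < k) ∧ (∀ v, v ∉ T → κ v = 0) ∧
      (∀ u ∈ T, ∀ v ∈ T, Adj u v → κ u ≠ κ v) ∧
      ∀ i < k, (T.filter fun v => κ v = i).card = m i := by
  rw [Col, Finset.mem_filter, Fintype.mem_piFinset]
  constructor
  · rintro ⟨h, h3, h4⟩
    refine ⟨fun v hv => ?_, fun v hv => ?_, h3, h4⟩
    · have := h v
      rw [if_pos hv, mem_range] at this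
      exact this
    · have := h v
      rw [if_neg hv, mem_singleton] at this
      exact this
  · rintro ⟨h1, h2, h3, h4⟩
    refine ⟨fun v => ?_, h3, h4⟩
    split_ifs with hv
    · exact mem_range.2 (h1 v hv)
    · exact mem_singleton.2 (h2 v hv)

theorem card_Col_succ (T : Finset (Fin 12)) (k : ℕ) (m : ℕ → ℕ) :
    (Col T (k + 1) m).card =
      ∑ S ∈ T.powerset with Stable S ∧ S.card = m k, (Col (T \ S) k m).card := by
  classical
  rw [Finset.card_eq_sum_card_fiberwise (f := fun κ => T.filter fun v => κ v = k)
    (t := T.powerset.filter fun S => Stable S ∧ S.card = m k)]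
  · refine Finset.sum_congr rfl fun S hS => ?_
    rw [mem_filter, mem_powerset] at hS
    obtain ⟨hST, hstab, hcard⟩ := hS
    refine Finset.card_nbij' (fun κ v => if v ∈ S then 0 else κ v)
      (fun κ v => if v ∈ S then k else κ v) ?_ ?_ ?_ ?_
    · intro κ hκ
      rw [mem_coe, mem_filter, mem_Col] at hκ
      obtain ⟨⟨h1, h2, h3, h4⟩, h5⟩ := hκ
      have h6 : ∀ v, v ∈ S ↔ v ∈ T ∧ κ v = k := by
        intro v
        rw [← h5, mem_filter]
      rw [mem_coe, mem_Col]
      refine ⟨?_, ?_, ?_, ?_⟩
      · intro v hv
        rw [mem_sdiff] at hv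
        simp only [if_neg hv.2]
        have := h1 v hv.1
        have h7 : κ v ≠ k := fun h => hv.2 ((h6 v).2 ⟨hv.1, h⟩)
        omega
      · intro v hv
        simp only
        split_ifs with h
        · rfl
        · exact h2 v (fun h' => hv (mem_sdiff.2 ⟨h', h⟩))
      · intro u hu v hv huv
        rw [mem_sdiff] at hu hv
        simp only [if_neg hu.2, if_neg hv.2]
        exact h3 u hu.1 v hv.1 huv
      · intro i hi
        rw [← h4 i (by omega)]
        congr 1
        ext v
        simp only [mem_filter, mem_sdiff]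
        constructor
        · rintro ⟨⟨h7, h8⟩, h9⟩
          rw [if_neg h8] at h9
          exact ⟨h7, h9⟩
        · rintro ⟨h7, h8⟩
          have h9 : v ∉ S := fun h => by
            have := ((h6 v).1 h).2
            omega
          exact ⟨⟨h7, h9⟩, by rw [if_neg h9]; exact h8⟩
    · intro κ hκ
      rw [mem_coe, mem_Col] at hκ
      obtain ⟨h1, h2, h3, h4⟩ := hκ
      rw [mem_coe, mem_filter, mem_Col]
      refine ⟨⟨?_, ?_, ?_, ?_⟩, ?_⟩
      · intro v hv
        simp only
        split_ifs with h
        · omega
        · have := h1 v (mem_sdiff.2 ⟨hv, h⟩)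
          omega
      · intro v hv
        have h : v ∉ S := fun h => hv (hST h)
        simp only [if_neg h]
        exact h2 v (fun h' => hv (mem_sdiff.1 h').1)
      · intro u hu v hv huv
        simp only
        split_ifs with hu' hv' hv'
        · exact absurd huv (hstab u hu' v hv')
        · have := h1 v (mem_sdiff.2 ⟨hv, hv'⟩)
          omega
        · have := h1 u (mem_sdiff.2 ⟨hu, hu'⟩)
          omega
        · exact h3 u (mem_sdiff.2 ⟨hu, hu'⟩) v (mem_sdiff.2 ⟨hv, hv'⟩) huv
      · intro i hi
        by_cases hik : i = k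
        · subst hik
          rw [← hcard]
          congr 1
          ext v
          simp only [mem_filter]
          constructor
          · rintro ⟨h5, h6⟩
            by_contra h7
            rw [if_neg h7] at h6
            have := h1 v (mem_sdiff.2 ⟨h5, h7⟩)
            omega
          · intro h5
            exact ⟨hST h5, if_pos h5⟩
        · rw [← h4 i (by omega)]
          congr 1
          ext v
          simp only [mem_filter, mem_sdiff]
          constructor
          · rintro ⟨h5, h6⟩
            have h7 : v ∉ S := fun h => by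
              rw [if_pos h] at h6
              exact hik h6.symm
            rw [if_neg h7] at h6
            exact ⟨⟨h5, h7⟩, h6⟩
          · rintro ⟨⟨h5, h7⟩, h6⟩
            exact ⟨h5, by rw [if_neg h7]; exact h6⟩
      · ext v
        simp only [mem_filter]
        constructor
        · rintro ⟨h5, h6⟩
          by_contra h7
          rw [if_neg h7] at h6
          have := h1 v (mem_sdiff.2 ⟨h5, h7⟩)
          omega
        · intro h5
          exact ⟨hST h5, if_pos h5⟩
    · intro κ hκ
      rw [mem_coe, mem_filter, mem_Col] at hκ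
      obtain ⟨⟨h1, h2, h3, h4⟩, h5⟩ := hκ
      funext v
      simp only
      split_ifs with h
      · rw [← h5, mem_filter] at h
        exact h.2.symm
      · rfl
    · intro κ hκ
      rw [mem_coe, mem_Col] at hκ
      obtain ⟨h1, h2, h3, h4⟩ := hκ
      funext v
      simp only
      split_ifs with h
      · exact (h2 v (fun h' => (mem_sdiff.1 h').2 h)).symm
      · rfl
  · intro κ hκ
    rw [mem_coe, mem_Col] at hκ
    obtain ⟨h1, h2, h3, h4⟩ := hκ
    rw [mem_coe, mem_filter, mem_powerset]
    refine ⟨Finset.filter_subset _ _, ?_, h4 k (by omega)⟩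
    intro u hu v hv huv
    rw [mem_filter] at hu hv
    exact h3 u hu.1 v hv.1 huv (by rw [hu.2, hv.2])

theorem Col_zero (T : Finset (Fin 12)) (m : ℕ → ℕ) :
    (Col T 0 m).card = if T = ∅ then 1 else 0 := by
  split_ifs with h
  · subst h
    rw [Finset.card_eq_one]
    refine ⟨fun _ => 0, ?_⟩
    ext κ
    rw [mem_Col, mem_singleton]
    constructor
    · rintro ⟨-, h2, -⟩
      funext v
      exact h2 v (by simp)
    · rintro rfl
      simp
  · rw [Finset.card_eq_zero, Finset.eq_empty_iff_forall_notMem]
    intro κ hκ
    rw [mem_Col] at hκ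
    obtain ⟨v, hv⟩ := Finset.nonempty_iff_ne_empty.2 h
    have := hκ.1 v hv
    omega

theorem chk_all (T : Finset (Fin 12)) : chk (ty T) = true := by
  have h0 : (T.filter (blk · = 0)).card < 5 := by
    have h1 := Finset.card_le_card (Finset.filter_subset_filter (blk · = 0) (Finset.subset_univ T))
    have h2 : ((univ : Finset (Fin 12)).filter (blk · = 0)).card = 4 := by decide
    omega
  have h1 : (T.filter (blk · = 1)).card < 3 := by
    have h1 := Finset.card_le_card (Finset.filter_subset_filter (blk · = 1) (Finset.subset_univ T))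
    have h2 : ((univ : Finset (Fin 12)).filter (blk · = 1)).card = 2 := by decide
    omega
  have h2 : (T.filter (blk · = 2)).card < 3 := by
    have h1 := Finset.card_le_card (Finset.filter_subset_filter (blk · = 2) (Finset.subset_univ T))
    have h2 : ((univ : Finset (Fin 12)).filter (blk · = 2)).card = 2 := by decide
    omega
  have h3 : (T.filter (blk · = 3)).card < 5 := by
    have h1 := Finset.card_le_card (Finset.filter_subset_filter (blk · = 3) (Finset.subset_univ T))
    have h2 : ((univ : Finset (Fin 12)).filter (blk · = 3)).card = 4 := by decide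
    omega
  rw [ty]
  set a := (T.filter (blk · = 0)).card
  set b := (T.filter (blk · = 1)).card
  set c := (T.filter (blk · = 2)).card
  set d := (T.filter (blk · = 3)).card
  have key : ((List.range 3).all fun b => (List.range 3).all fun c => (List.range 5).all fun d =>
      chk (a, b, c, d)) = true := by
    interval_cases a
    · exact chk0
    · exact chk1
    · exact chk2
    · exact chk3
    · exact chk4
  rw [List.all_eq_true] at key
  have k1 := key b (List.mem_range.2 h1)
  rw [List.all_eq_true] at k1
  have k2 := k1 c (List.mem_range.2 h2)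
  rw [List.all_eq_true] at k2
  exact k2 d (List.mem_range.2 h3)

theorem D_cY_ty (T : Finset (Fin 12)) (a : ℕ) (ν : YoungDiagram) (hν : ν.cells.card + a = T.card) :
    D a (cY (ty T)) ν =
      ∑ S ∈ T.powerset with Stable S ∧ S.card = a, cY (ty (T \ S)) ν := by
  classical
  rw [chk_spec (ty T) (chk_all T) a ν (by rw [tot_ty]; exact hν)]
  have h1 : ((tup (ty T)).map fun s => bif okb s && Nat.beq (tot s) a then
        (mult (ty T) s : ℤ) * val (P (tot (ty T) - a)) (row (sub4 (ty T) s)) ν.rowLens else 0) =
      (tup (ty T)).map fun s => (mult (ty T) s : ℤ) * (bif okb s && Nat.beq (tot s) a then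
        val (P (tot (ty T) - a)) (row (sub4 (ty T) s)) ν.rowLens else 0) := by
    apply List.map_congr_left
    intro s _
    cases (okb s && Nat.beq (tot s) a) <;> simp
  rw [h1, tup_sum, ← sum_powerset_ty, Finset.sum_filter]
  refine Finset.sum_congr rfl fun S hS => ?_
  rw [mem_powerset] at hS
  by_cases hc : Stable S ∧ S.card = a
  · rw [if_pos hc, (okb_iff S).2 hc.1, tot_ty S, (beq_iff _ _).2 hc.2, Bool.and_self, cond_true,
      cY, ← ty_sdiff T S hS, tot_ty (T \ S), Finset.card_sdiff_of_subset hS, tot_ty, hc.2]
  · rw [if_neg hc]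
    have : (okb (ty S) && Nat.beq (tot (ty S)) a) = false := by
      rw [Bool.eq_false_iff]
      intro h
      rw [Bool.and_eq_true, okb_iff, beq_iff, tot_ty] at h
      exact hc h
    rw [this, cond_false]

theorem cY_empty : cY (ty ∅) ⊥ = 1 := by
  have h : (⊥ : YoungDiagram).rowLens = [] := by
    have h1 := rowLens_mem_P (n := 0) (μ := ⊥) rfl
    have h2 : P 0 = [[]] := by decide
    rw [h2] at h1
    simpa using h1
  rw [cY, h]
  decide

theorem card_Col (k : ℕ) : ∀ (T : Finset (Fin 12)) (m : ℕ → ℕ),
    ((Col T k m).card : ℤ) =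
      ∑ ρ ∈ YD T.card, cY (ty T) ρ * KK (fun i => (m i : ℤ)) k ρ := by
  classical
  induction k with
  | zero =>
    intro T m
    rw [Col_zero]
    split_ifs with h
    · subst h
      rw [Finset.sum_eq_single ⊥]
      · rw [KK_zero_bot, cY_empty]
        rfl
      · intro ρ _ hρ
        rw [KK_zero_ne _ hρ, mul_zero]
      · intro h1
        exact absurd (mem_YD.2 rfl) h1
    · rw [Finset.sum_eq_zero]
      · rfl
      · intro ρ hρ
        rw [KK_zero_ne, mul_zero]
        rintro rfl
        rw [mem_YD] at hρ
        exact h (Finset.card_eq_zero.1 hρ.symm)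
  | succ k ih =>
    intro T m
    rw [card_Col_succ, Nat.cast_sum]
    by_cases hm : m k ≤ T.card
    · obtain ⟨n, hn⟩ : ∃ n, n + m k = T.card := ⟨T.card - m k, by omega⟩
      have h1 : ∑ ρ ∈ YD T.card, cY (ty T) ρ * KK (fun i => (m i : ℤ)) (k + 1) ρ =
          ∑ ν ∈ YD n, KK (fun i => (m i : ℤ)) k ν * D (m k) (cY (ty T)) ν := by
        rw [← sum_U_mul, hn]
        refine Finset.sum_congr rfl fun ρ _ => ?_
        rw [KK, mul_comm]
      rw [h1]
      have h2 : ∀ ν ∈ YD n, KK (fun i => (m i : ℤ)) k ν * D (m k) (cY (ty T)) ν =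
          ∑ S ∈ T.powerset with Stable S ∧ S.card = m k,
            cY (ty (T \ S)) ν * KK (fun i => (m i : ℤ)) k ν := by
        intro ν hν
        rw [mem_YD] at hν
        rw [D_cY_ty T (m k) ν (by omega), Finset.mul_sum]
        refine Finset.sum_congr rfl fun S _ => by ring
      rw [Finset.sum_congr rfl h2, Finset.sum_comm]
      refine Finset.sum_congr rfl fun S hS => ?_
      rw [mem_filter, mem_powerset] at hS
      rw [ih, Finset.card_sdiff_of_subset hS.1, hS.2.2]
      have : T.card - m k = n := by omega
      rw [this]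
    · rw [Finset.sum_eq_zero, Finset.sum_eq_zero]
      · intro ρ hρ
        rw [mem_YD] at hρ
        have : KK (fun i => (m i : ℤ)) (k + 1) ρ = 0 := by
          rw [KK, U, Finset.sum_eq_zero]
          intro ν hν
          rw [mem_filter] at hν
          omega
        rw [this, mul_zero]
      · intro S hS
        rw [mem_filter, mem_powerset] at hS
        have := Finset.card_le_card hS.1
        omega

end Pool.Agent.U67.SNP
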