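import Mathlib
import Pool.Agent.U67.SNP.Count

/-! # Schur polynomials and the chromatic polynomial of the graph -/

set_option autoImplicit false

namespace Pool.Agent.U67.SNP

open Pool.Agent.R850.FG Finset

theorem coeff_prod_X {ι : Type} (s : Finset ι) (f : ι → ℕ) (m : ℕ →₀ ℕ) :
    MvPolynomial.coeff m (∏ i ∈ s, (MvPolynomial.X (f i) : MvPolynomial ℕ ℤ)) =
      if ∑ i ∈ s, Finsupp.single (f i) 1 = m then 1 else 0 := by
  have h : ∏ i ∈ s, (MvPolynomial.X (f i) : MvPolynomial ℕ ℤ) =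
      MvPolynomial.monomial (∑ i ∈ s, Finsupp.single (f i) 1) 1 := by
    rw [MvPolynomial.monomial_sum_one]
    rfl
  rw [h, MvPolynomial.coeff_monomial]

/-- the Schur polynomial in `k` variables -/
noncomputable def sk (μ : YoungDiagram) (k : ℕ) : MvPolynomial ℕ ℤ :=
  ∑ᶠ T : {T : SemistandardYoungTableau μ // ∀ p ∈ μ.cells, T p.1 p.2 < k},
    ∏ p ∈ μ.cells, (MvPolynomial.X (T.1 p.1 p.2) : MvPolynomial ℕ ℤ)

instance finite_tab (μ : YoungDiagram) (k : ℕ) :
    Finite {T : SemistandardYoungTableau μ // ∀ p ∈ μ.cells, T p.1 p.2 < k} := by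
  refine Finite.of_injective
    (fun T => fun p : μ.cells => (⟨T.1 p.1.1 p.1.2, T.2 p.1 p.2⟩ : Fin k)) ?_
  intro T T' h
  apply Subtype.ext
  ext i j
  by_cases hc : (i, j) ∈ μ
  · have h1 := congrFun h ⟨(i, j), (YoungDiagram.mem_cells _).2 hc⟩
    simpa using h1
  · rw [T.1.zeros hc, T'.1.zeros hc]

theorem coeff_sk (μ : YoungDiagram) (k : ℕ) (m : ℕ →₀ ℕ) :
    MvPolynomial.coeff m (sk μ k) =
      open Classical in if ∀ x, k ≤ x → m x = 0 then KK (fun i => (m i : ℤ)) k μ else 0 := by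
  classical
  have : Fintype {T : SemistandardYoungTableau μ // ∀ p ∈ μ.cells, T p.1 p.2 < k} :=
    Fintype.ofFinite _
  rw [sk, finsum_eq_sum_of_fintype, MvPolynomial.coeff_sum]
  simp only [coeff_prod_X]
  rw [Finset.sum_boole]
  split_ifs with h
  · rw [← (card_tab k μ m h).2]
    congr 1
    rw [← Fintype.card_subtype, ← Nat.card_eq_fintype_card]
    refine Nat.card_congr
      { toFun := fun T => ⟨T.1.1, T.2⟩
        invFun := fun T => ⟨⟨T.1, fun p hp => ctab_lt T.1 m T.2 k h hp⟩, T.2⟩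
        left_inv := fun T => rfl
        right_inv := fun T => rfl }
  · rw [Nat.cast_eq_zero, Finset.card_eq_zero, Finset.filter_eq_empty_iff]
    rintro T - hT
    apply h
    intro x hx
    have h1 : ctab T.1 = m := hT
    rw [← h1, ctab_apply, Finset.card_eq_zero, Finset.filter_eq_empty_iff]
    intro c hc hcx
    have := T.2 c hc
    omega

/-- the graph: the blow-up of a path, and an isolated vertex -/
def G : SimpleGraph (Option (Fin 12)) where
  Adj x y := ∃ u v, x = some u ∧ y = some v ∧ Adj u v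
  symm := ⟨fun x y ⟨u, v, h1, h2, h3⟩ => ⟨v, u, h2, h1, Or.symm h3⟩⟩
  loopless := ⟨fun x ⟨u, v, h1, h2, h3⟩ => by
    subst h1
    rw [Option.some.injEq] at h2
    subst h2
    rcases h3 with h | h <;> omega⟩

theorem G_adj (u v : Fin 12) : G.Adj (some u) (some v) ↔ Adj u v := by
  constructor
  · rintro ⟨u', v', h1, h2, h3⟩
    rw [Option.some.injEq] at h1 h2
    subst h1 h2
    exact h3
  · intro h
    exact ⟨u, v, rfl, rfl, h⟩

/-- the chromatic symmetric function in `k` variables -/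
noncomputable def XG (k : ℕ) : MvPolynomial ℕ ℤ :=
  ∑ᶠ κ : {κ : Option (Fin 12) → Fin k // ∀ u v, G.Adj u v → κ u ≠ κ v},
    ∏ v, (MvPolynomial.X ((κ.1 v : ℕ)) : MvPolynomial ℕ ℤ)

/-- the colorings with content `m` -/
def XC (k : ℕ) (m : ℕ →₀ ℕ) : Type :=
  {κ : Option (Fin 12) → Fin k // (∀ u v, G.Adj u v → κ u ≠ κ v) ∧
    ∀ x, ((univ : Finset (Option (Fin 12))).filter fun v => (κ v : ℕ) = x).card = m x}

theorem content_iff (k : ℕ) (κ : Option (Fin 12) → Fin k) (m : ℕ →₀ ℕ) :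
    ∑ v : Option (Fin 12), Finsupp.single ((κ v : ℕ)) 1 = m ↔
    ∀ x, ((univ : Finset (Option (Fin 12))).filter fun v => (κ v : ℕ) = x).card = m x := by
  rw [Finsupp.ext_iff]
  refine forall_congr' fun x => ?_
  rw [Finsupp.finsetSum_apply, Finset.card_filter]
  simp only [Finsupp.single_apply]

theorem coeff_XG (k : ℕ) (m : ℕ →₀ ℕ) :
    MvPolynomial.coeff m (XG k) = (Nat.card (XC k m) : ℤ) := by
  classical
  rw [XG, finsum_eq_sum_of_fintype, MvPolynomial.coeff_sum]
  simp only [coeff_prod_X]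
  rw [Finset.sum_boole]
  congr 1
  rw [← Fintype.card_subtype, ← Nat.card_eq_fintype_card]
  refine Nat.card_congr
    { toFun := fun T => ⟨T.1.1, T.1.2, (content_iff _ _ _).1 T.2⟩
      invFun := fun T => ⟨⟨T.1, T.2.1⟩, (content_iff _ _ _).2 T.2.2⟩
      left_inv := fun T => rfl
      right_inv := fun T => rfl }

end Pool.Agent.U67.SNP
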