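import Mathlib
import Pool.Agent.U67.SNP.Poly

/-! # The isolated vertex -/

set_option autoImplicit false

namespace Pool.Agent.U67.SNP

open Pool.Agent.R850.FG Finset

theorem KK_neg (m : ℕ → ℤ) (N i : ℕ) (hi : i < N) (hm : m i < 0) : KK m N = 0 := by
  induction N with
  | zero => omega
  | succ N ih =>
    funext ρ
    rw [KK, U]
    apply Finset.sum_eq_zero
    intro ν hν
    rw [mem_filter, mem_below] at hν
    by_cases h : i = N
    · subst h
      have := hν.1.card_le
      omega
    · rw [ih (by omega)]
      rfl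

theorem D_one_KK (m : ℕ → ℤ) (N : ℕ) (μ : YoungDiagram) :
    D 1 (KK m N) μ = ∑ i ∈ range N, KK (fun j => m j - if j = i then 1 else 0) N μ := by
  classical
  rw [D_KK]
  symm
  refine Finset.sum_bij (fun i _ => fun j => if j = i then 1 else 0) ?_ ?_ ?_ ?_
  · intro i hi
    rw [mem_piAntidiag]
    refine ⟨?_, ?_⟩
    · rw [Finset.sum_ite_eq', if_pos hi]
    · intro j hj
      by_cases h : j = i
      · rw [h]; exact hi
      · exact absurd (if_neg h) hj
  · intro i hi i' hi' h
    have := congrFun h i
    simp only [if_true] at this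
    by_contra hne
    rw [if_neg hne] at this
    exact one_ne_zero this
  · intro c hc
    rw [mem_piAntidiag] at hc
    obtain ⟨h1, h2⟩ := hc
    have h3 : ∃ i ∈ range N, c i ≠ 0 := by
      by_contra hcon
      push Not at hcon
      rw [Finset.sum_eq_zero hcon] at h1
      omega
    obtain ⟨i, hi, hci⟩ := h3
    refine ⟨i, hi, ?_⟩
    funext j
    rw [← Finset.add_sum_erase _ _ hi] at h1
    have h4 : c i = 1 := by omega
    by_cases hj : j = i
    · rw [if_pos hj, hj, h4]
    · rw [if_neg hj]
      by_contra hcj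
      have hj1 : j ∈ (range N).erase i := mem_erase.2 ⟨hj, h2 j (Ne.symm hcj)⟩
      have h5 := Finset.single_le_sum (f := c) (fun _ _ => Nat.zero_le _) hj1
      omega
  · intro i hi
    congr 1
    funext j
    simp only [Nat.cast_ite, Nat.cast_one, Nat.cast_zero]

/-- the content without one `i` -/
def less (m : ℕ → ℕ) (i : ℕ) : ℕ → ℕ := fun j => m j - if j = i then 1 else 0

theorem card_XC (k : ℕ) (m : ℕ →₀ ℕ) (hm : ∀ x, k ≤ x → m x = 0) :
    Nat.card (XC k m) = ∑ i ∈ range k, if 1 ≤ m i then (Col univ k (less m i)).card else 0 := by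
  classical
  let f : XC k m → Σ i : Fin k, ((Col univ k (less m i)).filter fun _ => 1 ≤ m i) :=
    fun κ => ⟨κ.1 none, fun v => κ.1 (some v), by
      rw [mem_filter]
      have h1 : ∀ x, (if (κ.1 none : ℕ) = x then 1 else 0) +
          ((univ : Finset (Fin 12)).filter fun v => (κ.1 (some v) : ℕ) = x).card = m x := by
        intro x
        rw [← κ.2.2 x, Finset.card_filter, Finset.card_filter, Fintype.sum_option]
      refine ⟨?_, ?_⟩
      · rw [mem_Col]
        refine ⟨fun v _ => (κ.1 (some v)).2, fun v hv => absurd (mem_univ v) hv, ?_, ?_⟩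
        · intro u _ v _ huv h
          exact κ.2.1 (some u) (some v) ((G_adj u v).2 huv) (Fin.ext h)
        · intro i _
          have h2 := h1 i
          rw [less]
          by_cases hi : i = (κ.1 none : ℕ)
          · rw [if_pos hi.symm] at h2
            rw [if_pos hi]
            omega
          · rw [if_neg (Ne.symm hi)] at h2
            rw [if_neg hi]
            omega
      · have h2 := h1 (κ.1 none : ℕ)
        rw [if_pos rfl] at h2
        omega⟩
  have hf : Function.Bijective f := by
    constructor
    · intro κ κ' h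
      have h1 : κ.1 none = κ'.1 none := congrArg Sigma.fst h
      have h2 : (f κ).2.1 = (f κ').2.1 := by rw [h]
      apply Subtype.ext
      funext v
      cases v with
      | none => exact h1
      | some v => exact Fin.ext (congrFun h2 v)
    · rintro ⟨i, κ, h0⟩
      obtain ⟨h1, h2⟩ := mem_filter.1 h0
      rw [mem_Col] at h1
      obtain ⟨h3, -, h4, h5⟩ := h1
      let κ' : Option (Fin 12) → Fin k := fun v =>
        match v with
        | none => i
        | some v => ⟨κ v, h3 v (mem_univ v)⟩
      refine ⟨⟨κ', ?_, ?_⟩, ?_⟩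
      · rintro u v ⟨u', v', rfl, rfl, h6⟩ h7
        exact h4 u' (mem_univ _) v' (mem_univ _) h6 (Fin.ext_iff.1 h7)
      · intro x
        rw [Finset.card_filter, Fintype.sum_option, ← Finset.card_filter]
        by_cases hx : x < k
        · have h6 := h5 x hx
          rw [less] at h6
          by_cases hi : (i : ℕ) = x
          · rw [if_pos hi.symm] at h6
            have : (if ((κ' none : Fin k) : ℕ) = x then 1 else 0) = 1 := if_pos hi
            rw [this]
            have h7 : ((univ : Finset (Fin 12)).filter fun v => ((κ' (some v) : Fin k) : ℕ) = x) =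
              (univ : Finset (Fin 12)).filter fun v => κ v = x := rfl
            rw [h7, h6]
            rw [hi] at h2
            omega
          · rw [if_neg (Ne.symm hi)] at h6
            have : (if ((κ' none : Fin k) : ℕ) = x then 1 else 0) = 0 := if_neg hi
            rw [this]
            have h7 : ((univ : Finset (Fin 12)).filter fun v => ((κ' (some v) : Fin k) : ℕ) = x) =
              (univ : Finset (Fin 12)).filter fun v => κ v = x := rfl
            rw [h7, h6]
            omega
        · rw [hm x (by omega)]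
          have : (if ((κ' none : Fin k) : ℕ) = x then 1 else 0) = 0 := if_neg (by
            have := (κ' none).2
            omega)
          rw [this, zero_add, Finset.card_eq_zero, Finset.filter_eq_empty_iff]
          intro v _ h8
          have := (κ' (some v)).2
          omega
      · rfl
  rw [Nat.card_congr (Equiv.ofBijective f hf), Nat.card_eq_fintype_card, Fintype.card_sigma,
    ← Fin.sum_univ_eq_sum_range (fun i => if 1 ≤ m i then (Col univ k (less m i)).card else 0)]
  refine Finset.sum_congr rfl fun i _ => ?_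
  rw [Fintype.card_coe, Finset.filter_const]
  split_ifs <;> rfl

theorem card_XC_eq (k : ℕ) (m : ℕ →₀ ℕ) (hm : ∀ x, k ≤ x → m x = 0) :
    (Nat.card (XC k m) : ℤ) =
      ∑ ρ ∈ YD 13, U 1 (cY (ty univ)) ρ * KK (fun i => (m i : ℤ)) k ρ := by
  classical
  rw [card_XC k m hm, Nat.cast_sum]
  have h1 := sum_U_mul 12 1 (cY (ty univ)) (KK (fun i => (m i : ℤ)) k)
  rw [show (((1 : ℕ) : ℤ)) = 1 from rfl, show 12 + 1 = 13 from rfl] at h1
  rw [h1]
  simp only [D_one_KK, Finset.mul_sum]
  rw [Finset.sum_comm]
  refine Finset.sum_congr rfl fun i hi => ?_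
  rw [mem_range] at hi
  split_ifs with h
  · rw [card_Col]
    have h2 : (univ : Finset (Fin 12)).card = 12 := by simp
    rw [h2]
    refine Finset.sum_congr rfl fun ν _ => ?_
    congr 2
    funext j
    rw [less]
    by_cases hj : j = i
    · subst hj
      rw [if_pos rfl, if_pos rfl]
      omega
    · rw [if_neg hj, if_neg hj]
      simp
  · rw [Finset.sum_eq_zero]
    · rfl
    · intro ν _
      rw [KK_neg _ k i hi (by rw [if_pos rfl]; omega)]
      simp

/-- one box is added -/
def Uv : List (List ℕ) → List ℤ → List ℕ → ℤ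
  | p :: ps, c :: cs, ρ => bif ill p ρ then c + Uv ps cs ρ else Uv ps cs ρ
  | _, _, _ => 0

theorem Uv_eq (ρ : List ℕ) : ∀ (ps : List (List ℕ)) (xs : List ℤ), ps.Nodup →
    (ps.map fun l => bif ill l ρ then val ps xs l else 0).sum = Uv ps xs ρ
  | ps, [], _ => by
    have : Uv ps [] ρ = 0 := by cases ps <;> rfl
    rw [this]
    apply List.sum_eq_zero
    intro x hx
    rw [List.mem_map] at hx
    obtain ⟨l, -, rfl⟩ := hx
    rw [val_nil]
    cases ill l ρ <;> rfl
  | [], x :: xs, _ => by simp [Uv]
  | p :: ps, x :: xs, hn => by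
    rw [List.nodup_cons] at hn
    have ih := Uv_eq ρ ps xs hn.2
    rw [Uv, List.map_cons, List.sum_cons]
    have h1 : (ps.map fun l => bif ill l ρ then val (p :: ps) (x :: xs) l else 0) =
        ps.map fun l => bif ill l ρ then val ps xs l else 0 := by
      apply List.map_congr_left
      intro l hl
      rw [val, if_neg (by rintro rfl; exact hn.1 hl), zero_add]
    rw [h1, ih, val, if_pos rfl, val_notMem _ _ _ hn.1, add_zero]
    cases ill p ρ <;> simp

theorem pos_chk : ((P 13).all fun l => decide (0 ≤ Uv (P 12) (row (4, 2, 2, 4)) l)) = true := by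
  decide +kernel

theorem U_nonneg (ρ : YoungDiagram) (hρ : ρ ∈ YD 13) : 0 ≤ U 1 (cY (ty univ)) ρ := by
  classical
  rw [mem_YD] at hρ
  have hty : ty univ = (4, 2, 2, 4) := by decide
  have h1 : U 1 (cY (ty univ)) ρ =
      ∑ ν ∈ YD 12, if IL ν ρ then cY (ty univ) ν else 0 := by
    rw [U, ← Finset.sum_filter]
    refine Finset.sum_congr ?_ fun _ _ => rfl
    ext ν
    rw [mem_filter, mem_filter, mem_below, mem_YD]
    constructor
    · rintro ⟨h, h'⟩
      exact ⟨by omega, h⟩
    · rintro ⟨h, h'⟩
      exact ⟨h', by omega⟩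
  have h2 : U 1 (cY (ty univ)) ρ = Uv (P 12) (row (4, 2, 2, 4)) ρ.rowLens := by
    rw [h1, hty, ← Uv_eq _ _ _ (nodup_P 12), ← sum_YD]
    refine Finset.sum_congr rfl fun ν _ => ?_
    rw [cY]
    by_cases hI : IL ν ρ
    · rw [if_pos hI, (IL_iff ν ρ).1 hI]
      rfl
    · rw [if_neg hI]
      rw [IL_iff, Bool.not_eq_true] at hI
      rw [hI]
      rfl
  rw [h2]
  have h3 := pos_chk
  rw [List.all_eq_true] at h3
  have h4 := h3 _ (rowLens_mem_P hρ)
  rwa [decide_eq_true_iff] at h4

/-- the coefficients of the Schur polynomials -/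
noncomputable def coef : YoungDiagram →₀ ℕ :=
  open Classical in
  Finsupp.onFinset (YD 13) (fun ρ => if ρ ∈ YD 13 then (U 1 (cY (ty univ)) ρ).toNat else 0)
    fun ρ h => by
      by_contra hρ
      rw [if_neg hρ] at h
      exact h rfl

theorem schur_pos (k : ℕ) : XG k = coef.sum fun μ a => a • sk μ k := by
  classical
  have h0 : coef.sum (fun μ a => a • sk μ k) =
      ∑ ρ ∈ YD 13, (U 1 (cY (ty univ)) ρ).toNat • sk ρ k := by
    rw [coef, Finsupp.onFinset_sum]
    · refine Finset.sum_congr rfl fun ρ hρ => ?_
      rw [if_pos hρ]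
    · intro a
      rw [zero_smul]
  rw [h0]
  ext m
  rw [coeff_XG, MvPolynomial.coeff_sum]
  by_cases hm : ∀ x, k ≤ x → m x = 0
  · rw [card_XC_eq k m hm]
    refine Finset.sum_congr rfl fun ρ hρ => ?_
    rw [MvPolynomial.coeff_smul, coeff_sk, if_pos hm, nsmul_eq_mul]
    congr 1
    have := U_nonneg ρ hρ
    omega
  · rw [Finset.sum_eq_zero]
    · rw [Nat.cast_eq_zero]
      have : IsEmpty (XC k m) := by
        constructor
        rintro ⟨κ, -, h2⟩
        apply hm
        intro x hx
        rw [← h2 x, Finset.card_eq_zero, Finset.filter_eq_empty_iff]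
        intro v _ h3
        have := (κ v).2
        omega
      exact Nat.card_of_isEmpty
    · intro ρ _
      rw [MvPolynomial.coeff_smul, coeff_sk, if_neg hm, smul_zero]

end Pool.Agent.U67.SNP
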