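import Mathlib
import Pool.Agent.U67.SNP.Iso

/-! # The Newton polytope is not saturated -/

set_option autoImplicit false

namespace Pool.Agent.U67.SNP

open Pool.Agent.R850.FG Finset

/-- the exponent `(a, b, c)` -/
noncomputable def ex (a b c : ℕ) : ℕ →₀ ℕ :=
  Finsupp.single 0 a + Finsupp.single 1 b + Finsupp.single 2 c

theorem ex_zero (a b c : ℕ) : ex a b c 0 = a := by simp [ex]

theorem ex_one (a b c : ℕ) : ex a b c 1 = b := by simp [ex]

theorem ex_two (a b c : ℕ) : ex a b c 2 = c := by simp [ex]

theorem ex_ge (a b c x : ℕ) (hx : 3 ≤ x) : ex a b c x = 0 := by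
  simp [ex, Finsupp.single_apply]
  omega

theorem mem_support (m : ℕ →₀ ℕ) (h : Nonempty (XC 3 m)) : m ∈ (XG 3).support := by
  rw [MvPolynomial.mem_support_iff, coeff_XG, Nat.cast_ne_zero]
  have : Finite (XC 3 m) := by
    unfold XC
    infer_instance
  exact Nat.card_pos.ne'

/-- the first coloring -/
def k1 : Option (Fin 12) → Fin 3
  | none => 0
  | some v => if blk v = 0 ∨ blk v = 3 then 0 else if blk v = 1 then 1 else 2

/-- the second coloring -/
def k2 : Option (Fin 12) → Fin 3
  | none => 0
  | some v => if blk v = 0 ∨ blk v = 2 then 0 else 1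

theorem proper_of (κ : Option (Fin 12) → Fin 3)
    (h : ∀ u v : Fin 12, Adj u v → κ (some u) ≠ κ (some v)) :
    ∀ u v, G.Adj u v → κ u ≠ κ v := by
  rintro u v ⟨u', v', rfl, rfl, h6⟩
  exact h u' v' h6

theorem content_of (κ : Option (Fin 12) → Fin 3) (a b c : ℕ)
    (h0 : ((univ : Finset (Option (Fin 12))).filter fun v => κ v = 0).card = a)
    (h1 : ((univ : Finset (Option (Fin 12))).filter fun v => κ v = 1).card = b)
    (h2 : ((univ : Finset (Option (Fin 12))).filter fun v => κ v = 2).card = c) :
    ∀ x, ((univ : Finset (Option (Fin 12))).filter fun v => (κ v : ℕ) = x).card = ex a b c x := by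
  intro x
  by_cases hx : 3 ≤ x
  · rw [ex_ge _ _ _ _ hx, Finset.card_eq_zero, Finset.filter_eq_empty_iff]
    intro v _ h
    have := (κ v).2
    omega
  · have hx' : x = 0 ∨ x = 1 ∨ x = 2 := by omega
    rcases hx' with rfl | rfl | rfl
    · rw [ex_zero, ← h0]
      congr 1
      ext v
      rw [mem_filter, mem_filter, Fin.ext_iff]
      rfl
    · rw [ex_one, ← h1]
      congr 1
      ext v
      rw [mem_filter, mem_filter, Fin.ext_iff]
      rfl
    · rw [ex_two, ← h2]
      congr 1
      ext v
      rw [mem_filter, mem_filter, Fin.ext_iff]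
      rfl

theorem sup1 : ex 9 2 2 ∈ (XG 3).support := by
  apply mem_support
  refine ⟨k1, proper_of k1 (by decide), content_of k1 9 2 2 (by decide) (by decide) (by decide)⟩

theorem sup2 : ex 7 6 0 ∈ (XG 3).support := by
  apply mem_support
  refine ⟨k2, proper_of k2 (by decide), content_of k2 7 6 0 (by decide) (by decide) (by decide)⟩

theorem notsup : ex 8 4 1 ∉ (XG 3).support := by
  classical
  rw [MvPolynomial.mem_support_iff, coeff_XG, not_not, Nat.cast_eq_zero]
  have : IsEmpty (XC 3 (ex 8 4 1)) := by
    constructor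
    rintro ⟨κ, h1, h2⟩
    have c0 := h2 0
    have c2 := h2 2
    rw [ex_zero] at c0
    rw [ex_two] at c2
    -- the vertices of the two middle blocks do not have the color 0
    have hA : ∀ u v : Fin 12, Adj u v → κ (some u) ≠ κ (some v) := fun u v h =>
      h1 _ _ ((G_adj u v).2 h)
    have key1 : ∀ u : Fin 12, blk u = 1 → (κ (some u) : ℕ) ≠ 0 := by
      intro u hu h0
      have hsub : ((univ : Finset (Option (Fin 12))).filter fun v => (κ v : ℕ) = 0) ⊆
          {none, some 4, some 5, some 8, some 9, some 10, some 11} := by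
        intro v hv
        rw [mem_filter] at hv
        cases v with
        | none => simp
        | some v =>
          have h3 : ¬ Adj u v := fun h => hA u v h (Fin.ext (by rw [h0, hv.2]))
          have h4 : blk v = 1 ∨ blk v = 3 := by
            rcases blk_cases v with h | h | h | h
            · exact absurd (Or.inr (by omega)) h3
            · exact Or.inl h
            · exact absurd (Or.inl (by omega)) h3
            · exact Or.inr h
          clear h3 hv c0 c2 h1 h2 hA h0
          revert v
          decide
      have h5 := Finset.card_le_card hsub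
      rw [c0] at h5
      have h6 : ({none, some 4, some 5, some 8, some 9, some 10, some 11} :
        Finset (Option (Fin 12))).card = 7 := by decide
      omega
    have key2 : ∀ u : Fin 12, blk u = 2 → (κ (some u) : ℕ) ≠ 0 := by
      intro u hu h0
      have hsub : ((univ : Finset (Option (Fin 12))).filter fun v => (κ v : ℕ) = 0) ⊆
          {none, some 0, some 1, some 2, some 3, some 6, some 7} := by
        intro v hv
        rw [mem_filter] at hv
        cases v with
        | none => simp
        | some v =>
          have h3 : ¬ Adj u v := fun h => hA u v h (Fin.ext (by rw [h0, hv.2]))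
          have h4 : blk v = 0 ∨ blk v = 2 := by
            rcases blk_cases v with h | h | h | h
            · exact Or.inl h
            · exact absurd (Or.inr (by omega)) h3
            · exact Or.inr h
            · exact absurd (Or.inl (by omega)) h3
          clear h3 hv c0 c2 h1 h2 hA h0
          revert v
          decide
      have h5 := Finset.card_le_card hsub
      rw [c0] at h5
      have h6 : ({none, some 0, some 1, some 2, some 3, some 6, some 7} :
        Finset (Option (Fin 12))).card = 7 := by decide
      omega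
    have b4 := key1 4 (by decide)
    have b5 := key1 5 (by decide)
    have b6 := key2 6 (by decide)
    have b7 := key2 7 (by decide)
    have a46 := hA 4 6 (by decide)
    have a47 := hA 4 7 (by decide)
    have a56 := hA 5 6 (by decide)
    rw [Ne, Fin.ext_iff] at a46 a47 a56
    have l4 := (κ (some 4)).2
    have l5 := (κ (some 5)).2
    have l6 := (κ (some 6)).2
    have l7 := (κ (some 7)).2
    rw [Finset.card_eq_one] at c2
    obtain ⟨w, hw⟩ := c2
    have hin : ∀ v, (κ v : ℕ) = 2 → v = w := by
      intro v hv
      have : v ∈ ((univ : Finset (Option (Fin 12))).filter fun v => (κ v : ℕ) = 2) :=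
        mem_filter.2 ⟨mem_univ _, hv⟩
      rw [hw, mem_singleton] at this
      exact this
    by_cases h4 : (κ (some 4) : ℕ) = 2
    · have h5 : (κ (some 5) : ℕ) = 2 := by omega
      have := (hin _ h4).trans (hin _ h5).symm
      exact absurd this (by decide)
    · have h6 : (κ (some 6) : ℕ) = 2 := by omega
      have h7 : (κ (some 7) : ℕ) = 2 := by omega
      have := (hin _ h6).trans (hin _ h7).symm
      exact absurd this (by decide)
  exact Nat.card_of_isEmpty

theorem hull : (fun i : ℕ => (ex 8 4 1 i : ℝ)) ∈ convexHull ℝ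
    ((fun β : ℕ →₀ ℕ => (fun i : ℕ => (β i : ℝ))) '' ((XG 3).support : Set (ℕ →₀ ℕ))) := by
  have h1 := subset_convexHull ℝ _ (Set.mem_image_of_mem
    (fun β : ℕ →₀ ℕ => (fun i : ℕ => (β i : ℝ))) (Finset.mem_coe.2 sup1))
  have h2 := subset_convexHull ℝ _ (Set.mem_image_of_mem
    (fun β : ℕ →₀ ℕ => (fun i : ℕ => (β i : ℝ))) (Finset.mem_coe.2 sup2))
  have h3 := (convex_convexHull ℝ ((fun β : ℕ →₀ ℕ => (fun i : ℕ => (β i : ℝ))) ''
    ((XG 3).support : Set (ℕ →₀ ℕ)))) h1 h2 (by norm_num : (0 : ℝ) ≤ 1 / 2)
    (by norm_num : (0 : ℝ) ≤ 1 / 2) (by norm_num)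
  convert h3 using 1
  funext x
  simp only [Pi.add_apply, Pi.smul_apply, smul_eq_mul]
  by_cases hx : 3 ≤ x
  · rw [ex_ge _ _ _ _ hx, ex_ge _ _ _ _ hx, ex_ge _ _ _ _ hx]
    norm_num
  · have hx' : x = 0 ∨ x = 1 ∨ x = 2 := by omega
    rcases hx' with rfl | rfl | rfl
    · rw [ex_zero, ex_zero, ex_zero]
      norm_num
    · rw [ex_one, ex_one, ex_one]
      norm_num
    · rw [ex_two, ex_two, ex_two]
      norm_num

end Pool.Agent.U67.SNP
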